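import Pool.Agent.Lib.MP_af3a4a_an.P1.CHK.DATA.N42x43.K0
import Pool.Agent.Lib.MP_af3a4a_an.P1.CHK.DATA.N42x43.K1
import Pool.Agent.Lib.MP_af3a4a_an.P1.CHK.DATA.N42x43.K2
import Pool.Agent.Lib.MP_af3a4a_an.P1.CHK.DATA.N42x43.K3

/-! glue for 42 <= N <= 43 (generated) -/

set_option autoImplicit false
set_option maxRecDepth 100000

namespace Pool.Agent.Lib.MP_af3a4a_an.P1.CHK.DATA.N42x43

open BOX

theorem g0 : ChunkP 42 43 0 512 0 101 0 2484 := ChunkP.g k0 k1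
theorem g1 : ChunkP 42 43 768 1024 80 96 1248 2484 := ChunkP.R k11 k12
theorem g2 : ChunkP 42 43 768 1024 80 96 1200 2484 := ChunkP.R k10 g1
theorem g3 : ChunkP 42 43 768 1024 80 96 1056 2484 := ChunkP.R k9 g2
theorem g4 : ChunkP 42 43 512 1024 80 96 1056 2484 := ChunkP.r k8 g3
theorem g5 : ChunkP 42 43 512 1024 80 96 1008 2484 := ChunkP.R k7 g4
theorem g6 : ChunkP 42 43 512 1024 80 96 816 2484 := ChunkP.R k6 g5
theorem g7 : ChunkP 42 43 512 1024 80 96 672 2484 := ChunkP.R k5 g6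
theorem g8 : ChunkP 42 43 512 1024 80 96 0 2484 := ChunkP.R k4 g7
theorem g9 : ChunkP 42 43 512 1024 64 96 0 2484 := ChunkP.g k3 g8
theorem g10 : ChunkP 42 43 512 1024 64 101 0 2484 := ChunkP.g g9 k13
theorem g11 : ChunkP 42 43 512 1024 0 101 0 2484 := ChunkP.g k2 g10
theorem g12 : ChunkP 42 43 0 1024 0 101 0 2484 := ChunkP.r g0 g11
theorem g13 : ChunkP 42 43 1024 1536 64 80 528 2484 := ChunkP.r k17 k18
theorem g14 : ChunkP 42 43 1024 1536 64 80 432 2484 := ChunkP.R k16 g13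
theorem g15 : ChunkP 42 43 1024 1536 64 80 0 2484 := ChunkP.R k15 g14
theorem g16 : ChunkP 42 43 1024 1536 80 96 480 2484 := ChunkP.r k21 k22
theorem g17 : ChunkP 42 43 1024 1536 80 96 432 2484 := ChunkP.R k20 g16
theorem g18 : ChunkP 42 43 1024 1536 80 96 0 2484 := ChunkP.R k19 g17
theorem g19 : ChunkP 42 43 1024 1536 64 96 0 2484 := ChunkP.g g15 g18
theorem g20 : ChunkP 42 43 1024 1536 64 101 0 2484 := ChunkP.g g19 k23
theorem g21 : ChunkP 42 43 1024 1536 0 101 0 2484 := ChunkP.g k14 g20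
theorem g22 : ChunkP 42 43 1536 2048 64 96 0 2484 := ChunkP.g k25 k26
theorem g23 : ChunkP 42 43 1536 2048 64 101 0 2484 := ChunkP.g g22 k27
theorem g24 : ChunkP 42 43 1536 2048 0 101 0 2484 := ChunkP.g k24 g23
theorem g25 : ChunkP 42 43 1024 2048 0 101 0 2484 := ChunkP.r g21 g24
theorem g26 : ChunkP 42 43 0 2048 0 101 0 2484 := ChunkP.r g12 g25
theorem g27 : ChunkP 42 43 2048 3072 0 101 0 2484 := ChunkP.r k28 k29
theorem g28 : ChunkP 42 43 2048 4096 0 101 0 2484 := ChunkP.r g27 k30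
theorem g29 : ChunkP 42 43 0 4096 0 101 0 2484 := ChunkP.r g26 g28

/-- the whole box -/
theorem allBox : ChunkP 42 43 0 4096 0 101 0 2484 := g29

theorem full {N : ℕ} (hNa : 42 ≤ N) (hNb : N ≤ 43) {z w : Fin N → ℂ} {R : ℝ} {σ : Fin N → ℂ}
    (hC : Pool.Agent.Lib.MP_af3a4a_an.P1.H80.Cfg2 N z w R σ) : ((2484 : ℕ) : ℝ) / 1024 < R := ChunkP.full allBox hNa hNb hC

end Pool.Agent.Lib.MP_af3a4a_an.P1.CHK.DATA.N42x43
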